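import Mathlib

/-!
# Periodic predicates in windows, and two estimates
-/

set_option autoImplicit false

open Filter Set
open scoped Topology

namespace Pool.Agent.N285.GP

lemma card_ico_periodic (g : ℕ → Prop) [DecidablePred g] (W : ℕ) (hg : Function.Periodic g W) (x q : ℕ) :
    ((Finset.Ico x (x + q * W)).filter g).card = q * Nat.count g W := by
  induction q with
  | zero => simp
  | succ q ih =>
    have h1 : Finset.Ico x (x + (q + 1) * W) = Finset.Ico x (x + q * W) ∪ Finset.Ico (x + q * W) (x + q * W + W) := by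
      rw [Finset.Ico_union_Ico_eq_Ico (by omega) (by omega)]
      congr 1
      ring
    have h2 : Disjoint ((Finset.Ico x (x + q * W)).filter g) ((Finset.Ico (x + q * W) (x + q * W + W)).filter g) :=
      Finset.disjoint_filter_filter (Finset.Ico_disjoint_Ico_consecutive _ _ _)
    rw [h1, Finset.filter_union, Finset.card_union_of_disjoint h2, ih, Nat.filter_Ico_card_eq_of_periodic _ _ _ hg]
    ring

lemma card_win (g : ℕ → Prop) [DecidablePred g] (W : ℕ) (hW : 0 < W) (hg : Function.Periodic g W) (x H : ℕ) :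
    (Nat.count g W : ℝ) / W * H - W ≤ ((Finset.Ioc x (x + H)).filter g).card ∧
      (((Finset.Ioc x (x + H)).filter g).card : ℝ) ≤ (Nat.count g W : ℝ) / W * H + W := by
  have e1 : Finset.Ioc x (x + H) = Finset.Ico (x + 1) (x + 1 + H) := by
    ext k
    simp only [Finset.mem_Ioc, Finset.mem_Ico]
    omega
  rw [e1]
  set q := H / W with hq
  set r := H % W with hr
  have hH : H = q * W + r := by rw [hq, hr, mul_comm]; exact (Nat.div_add_mod H W).symm
  have hrW : r < W := Nat.mod_lt _ hW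
  have h1 : Finset.Ico (x + 1) (x + 1 + H) = Finset.Ico (x + 1) (x + 1 + q * W) ∪ Finset.Ico (x + 1 + q * W) (x + 1 + H) := by
    rw [Finset.Ico_union_Ico_eq_Ico (by omega) (by omega)]
  have h2 : Disjoint ((Finset.Ico (x + 1) (x + 1 + q * W)).filter g) ((Finset.Ico (x + 1 + q * W) (x + 1 + H)).filter g) :=
    Finset.disjoint_filter_filter (Finset.Ico_disjoint_Ico_consecutive _ _ _)
  rw [h1, Finset.filter_union, Finset.card_union_of_disjoint h2, card_ico_periodic g W hg]
  have h3 : ((Finset.Ico (x + 1 + q * W) (x + 1 + H)).filter g).card ≤ r := by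
    refine (Finset.card_filter_le _ _).trans ?_
    rw [Nat.card_Ico]
    omega
  have h4 : Nat.count g W ≤ W := by
    have := Nat.count_le (p := g) (n := W)
    exact this
  have h5 : (H : ℝ) = q * W + r := by exact_mod_cast hH
  have hW' : (0 : ℝ) < W := by exact_mod_cast hW
  have h3' : (((Finset.Ico (x + 1 + q * W) (x + 1 + H)).filter g).card : ℝ) ≤ r := by exact_mod_cast h3
  have h4' : (Nat.count g W : ℝ) ≤ W := by exact_mod_cast h4
  have hr' : (r : ℝ) ≤ W := by exact_mod_cast hrW.le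
  have h6 : (Nat.count g W : ℝ) / W * H = q * Nat.count g W + (Nat.count g W : ℝ) / W * r := by
    rw [h5]
    field_simp
  have h7 : (Nat.count g W : ℝ) / W ≤ 1 := by rw [div_le_one hW']; exact h4'
  have h8 : 0 ≤ (Nat.count g W : ℝ) / W := by positivity
  have h9 : 0 ≤ (r : ℝ) := Nat.cast_nonneg r
  have h10 : (Nat.count g W : ℝ) / W * r ≤ 1 * W := mul_le_mul h7 hr' h9 zero_le_one
  have h11 : 0 ≤ (Nat.count g W : ℝ) / W * r := mul_nonneg h8 h9
  have h12 : (0 : ℝ) ≤ (((Finset.Ico (x + 1 + q * W) (x + 1 + H)).filter g).card : ℝ) := Nat.cast_nonneg _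
  push_cast
  rw [h6]
  constructor <;> linarith

/-- estimate for the upper half -/
lemma est_upper {b θ K L N : ℝ} (hb : 0 ≤ b) (hθ : 0 ≤ θ) (hK : 0 ≤ K) (hL : 1 ≤ L)
    (hN : θ * L ^ 2 - K ≤ b * N) : θ * L - (θ + K) ≤ b * N / (L + 1) := by
  rw [le_div_iff₀ (by linarith)]
  nlinarith

/-- estimate for the lower half -/
lemma est_lower {b θ K L N : ℝ} (hb : 0 ≤ b) (hθ : 0 ≤ θ) (hK : 0 ≤ K) (hL : b + 1 ≤ L) (hL2 : 2 * b ≤ L)
    (hN : b * N ≤ θ * L ^ 2 + K) : b * N / (L - b) ≤ θ * L + (2 * b * θ + K) := by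
  rw [div_le_iff₀ (by linarith)]
  nlinarith [mul_nonneg hθ (mul_nonneg hb (sub_nonneg.2 hL2)), mul_nonneg hK (show 0 ≤ L - b - 1 by linarith)]

/-- powers of `1 - u` from below -/
lemma pow_ge_exp {b L : ℝ} (hb : 0 ≤ b) (hL : b + 1 ≤ L) (N : ℕ) :
    Real.exp (-(b * N / (L - b))) ≤ (1 - b / L) ^ N := by
  have hL0 : 0 < L := by linarith
  have h0 : 0 < L - b := by linarith
  have hu : 0 < 1 - b / L := by
    rw [sub_pos, div_lt_one hL0]
    linarith
  have h1 : -(b / (L - b)) ≤ Real.log (1 - b / L) := by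
    have h2 := Real.one_sub_inv_le_log_of_pos hu
    have h3 : 1 - (1 - b / L)⁻¹ = -(b / (L - b)) := by
      have h5 : 1 - b / L = (L - b) / L := by field_simp
      rw [h5, inv_div]
      field_simp
      ring
    rw [h3] at h2
    exact h2
  have e1 : (1 - b / L) ^ N = Real.exp (N * Real.log (1 - b / L)) := by
    rw [← Real.log_pow, Real.exp_log (by positivity)]
  rw [e1]
  apply Real.exp_le_exp.2
  have h5 : (N : ℝ) * -(b / (L - b)) ≤ N * Real.log (1 - b / L) := mul_le_mul_of_nonneg_left h1 (Nat.cast_nonneg _)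
  calc -(b * N / (L - b)) = (N : ℝ) * -(b / (L - b)) := by ring
    _ ≤ _ := h5

/-- powers of `1 - l` from above -/
lemma pow_le_exp {b L : ℝ} (hb : b ≤ L + 1) (hL : 0 < L + 1) (N : ℕ) :
    (1 - b / (L + 1)) ^ N ≤ Real.exp (-(b * N / (L + 1))) := by
  have h2 : (0 : ℝ) ≤ 1 - b / (L + 1) := by
    rw [sub_nonneg, div_le_one hL]
    exact hb
  have h3 : 1 - b / (L + 1) ≤ Real.exp (-(b / (L + 1))) := by
    have := Real.add_one_le_exp (-(b / (L + 1)))
    linarith
  refine (pow_le_pow_left₀ h2 h3 _).trans ?_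
  rw [← Real.exp_nat_mul]
  apply le_of_eq
  congr 1
  ring

end Pool.Agent.N285.GP
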