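import Mathlib
import Pool.Agent.N740.HK.Trials
import Pool.Agent.R528.RM.BHFinal

/-!
# Windows of places: probability that none of finitely many places is chosen
-/

set_option autoImplicit false
set_option linter.unusedSectionVars false

open MeasureTheory Filter Set
open scoped ENNReal Topology

namespace Pool.Agent.N285.GP

open Pool.Agent.R528.RM

variable {Ω : Type} {m0 : MeasurableSpace Ω} {μ : Measure Ω} [IsProbabilityMeasure μ]
  {ℱ : Filtration ℕ m0} {A : ℕ → Set Ω}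

/-- none of the places of `S` is chosen -/
def NC (A : ℕ → Set Ω) (S : Finset ℕ) : Set Ω := {ω | ∀ s ∈ S, ω ∉ A s}

/-- a violation just before some place of `S` -/
def ZV (V : ℕ → Set Ω) (S : Finset ℕ) : Set Ω := {ω | ∃ s ∈ S, ω ∈ V (s - 1)}

lemma NC_meas (hA : ∀ n, MeasurableSet[ℱ n] (A n)) (S : Finset ℕ) (e : ℕ) (he : ∀ s ∈ S, s ≤ e) :
    MeasurableSet[ℱ e] (NC A S) := by
  have h : NC A S = ⋂ s ∈ S, (A s)ᶜ := by
    ext ω
    simp [NC]
  rw [h]
  exact Finset.measurableSet_biInter _ fun s hs => (ℱ.mono (he s hs) _ (hA s)).compl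

lemma ZV_meas {V : ℕ → Set Ω} (hV : ∀ n, MeasurableSet[ℱ n] (V n)) (S : Finset ℕ) (e : ℕ) (he : ∀ s ∈ S, s ≤ e) :
    MeasurableSet[ℱ e] (ZV V S) := by
  have h : ZV V S = ⋃ s ∈ S, V (s - 1) := by
    ext ω
    simp [ZV]
  rw [h]
  exact Finset.measurableSet_biUnion _ fun s hs => ℱ.mono (by have := he s hs; omega) _ (hV (s - 1))

/-- from below -/
theorem place_lower (hA : ∀ n, MeasurableSet[ℱ n] (A n)) {V : ℕ → Set Ω} (hV : ∀ n, MeasurableSet[ℱ n] (V n))
    {u : ℝ} (hu0 : 0 ≤ u) (hu1 : u ≤ 1) (T : ℕ) {C : Set Ω} (hC : MeasurableSet[ℱ T] C) (S : Finset ℕ)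
    (hT : ∀ s ∈ S, T < s) (hd : ∀ s ∈ S, ∀ ω, ω ∉ V (s - 1) → dens μ ℱ A (s - 1) ω ≤ u) :
    (1 - u) ^ S.card * μ.real C ≤ μ.real (C ∩ (NC A S ∪ ZV V S)) := by
  induction S using Finset.induction_on_max with
  | empty =>
    have : C ∩ (NC A ∅ ∪ ZV V ∅) = C := by
      ext ω
      simp [NC]
    rw [this]
    simp
  | insert a S hmax ih =>
    have ha : a ∉ S := fun h => lt_irrefl _ (hmax a h)
    have ih' := ih (fun s hs => hT s (Finset.mem_insert_of_mem hs)) (fun s hs => hd s (Finset.mem_insert_of_mem hs))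
    have hTa : T < a := hT a (Finset.mem_insert_self a S)
    obtain ⟨b, rfl⟩ : ∃ b, a = b + 1 := ⟨a - 1, by omega⟩
    have hSb : ∀ s ∈ S, s ≤ b := fun s hs => by have := hmax s hs; omega
    set E' : Set Ω := C ∩ (NC A S ∪ ZV V S) with hE'
    have hE'm : MeasurableSet[ℱ b] E' :=
      (ℱ.mono (by omega) _ hC).inter ((NC_meas hA S b hSb).union (ZV_meas hV S b hSb))
    have hB : MeasurableSet[ℱ b] (E' \ V b) := hE'm.diff (hV b)
    have h1 := upper_meas (μ := μ) hA b hB (u := u) (fun ω hω => by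
      have := hd (b + 1) (Finset.mem_insert_self _ _) ω
      simp only [Nat.add_sub_cancel] at this
      exact this hω.2)
    have hsub : E' \ ((E' \ V b) ∩ A (b + 1)) ⊆ C ∩ (NC A (insert (b + 1) S) ∪ ZV V (insert (b + 1) S)) := by
      rintro ω ⟨⟨hωC, hω⟩, hω2⟩
      refine ⟨hωC, ?_⟩
      rcases hω with h | ⟨s, hs, hs2⟩
      · by_cases hv : ω ∈ V b
        · right
          exact ⟨b + 1, Finset.mem_insert_self _ _, by simpa using hv⟩
        · left
          intro s hs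
          rcases Finset.mem_insert.1 hs with rfl | hs
          · intro hA'
            exact hω2 ⟨⟨⟨hωC, Or.inl h⟩, hv⟩, hA'⟩
          · exact h s hs
      · right
        exact ⟨s, Finset.mem_insert_of_mem hs, hs2⟩
    have hm : MeasurableSet ((E' \ V b) ∩ A (b + 1)) := (ℱ.le _ _ hB).inter (ℱ.le _ _ (hA _))
    have h2 := measureReal_inter_add_sdiff (μ := μ) (s := E') hm
    have h3 : μ.real (E' ∩ ((E' \ V b) ∩ A (b + 1))) ≤ μ.real ((E' \ V b) ∩ A (b + 1)) :=
      measureReal_mono inter_subset_right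
    have h4 : μ.real (E' \ V b) ≤ μ.real E' := measureReal_mono sdiff_subset
    have h5 : μ.real (E' \ ((E' \ V b) ∩ A (b + 1))) ≤ μ.real (C ∩ (NC A (insert (b + 1) S) ∪ ZV V (insert (b + 1) S))) :=
      measureReal_mono hsub
    rw [Finset.card_insert_of_notMem ha, pow_succ]
    have h6 : u * μ.real (E' \ V b) ≤ u * μ.real E' := mul_le_mul_of_nonneg_left h4 hu0
    have h7 : (1 - u) * ((1 - u) ^ S.card * μ.real C) ≤ (1 - u) * μ.real E' :=
      mul_le_mul_of_nonneg_left ih' (by linarith)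
    calc (1 - u) ^ S.card * (1 - u) * μ.real C = (1 - u) * ((1 - u) ^ S.card * μ.real C) := by ring
      _ ≤ (1 - u) * μ.real E' := h7
      _ ≤ _ := by linarith

/-- from above -/
theorem place_upper (hA : ∀ n, MeasurableSet[ℱ n] (A n)) {V : ℕ → Set Ω} (hV : ∀ n, MeasurableSet[ℱ n] (V n))
    {l : ℝ} (hl1 : l ≤ 1) (T : ℕ) {C : Set Ω} (hC : MeasurableSet[ℱ T] C) (S : Finset ℕ)
    (hT : ∀ s ∈ S, T < s) (hd : ∀ s ∈ S, ∀ ω, ω ∉ V (s - 1) → l ≤ dens μ ℱ A (s - 1) ω) :
    μ.real ((C ∩ NC A S) \ ZV V S) ≤ (1 - l) ^ S.card * μ.real C := by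
  induction S using Finset.induction_on_max with
  | empty =>
    have : (C ∩ NC A ∅) \ ZV V ∅ = C := by
      ext ω
      simp [NC, ZV]
    rw [this]
    simp
  | insert a S hmax ih =>
    have ha : a ∉ S := fun h => lt_irrefl _ (hmax a h)
    have ih' := ih (fun s hs => hT s (Finset.mem_insert_of_mem hs)) (fun s hs => hd s (Finset.mem_insert_of_mem hs))
    have hTa : T < a := hT a (Finset.mem_insert_self a S)
    obtain ⟨b, rfl⟩ : ∃ b, a = b + 1 := ⟨a - 1, by omega⟩
    have hSb : ∀ s ∈ S, s ≤ b := fun s hs => by have := hmax s hs; omega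
    set B : Set Ω := ((C ∩ NC A S) \ ZV V S) \ V b with hB
    have hBm : MeasurableSet[ℱ b] B :=
      (((ℱ.mono (by omega) _ hC).inter (NC_meas hA S b hSb)).diff (ZV_meas hV S b hSb)).diff (hV b)
    have h1 := lower_meas (μ := μ) hA b hBm (l := l) (fun ω hω => by
      have := hd (b + 1) (Finset.mem_insert_self _ _) ω
      simp only [Nat.add_sub_cancel] at this
      exact this hω.2)
    have hsub : (C ∩ NC A (insert (b + 1) S)) \ ZV V (insert (b + 1) S) ⊆ B \ A (b + 1) := by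
      rintro ω ⟨⟨hωC, hω⟩, hω2⟩
      refine ⟨⟨⟨⟨hωC, fun s hs => hω s (Finset.mem_insert_of_mem hs)⟩, ?_⟩, ?_⟩, hω (b + 1) (Finset.mem_insert_self _ _)⟩
      · rintro ⟨s, hs, hs2⟩
        exact hω2 ⟨s, Finset.mem_insert_of_mem hs, hs2⟩
      · intro hv
        exact hω2 ⟨b + 1, Finset.mem_insert_self _ _, by simpa using hv⟩
    have h2 := measureReal_inter_add_sdiff (μ := μ) (s := B) (ℱ.le _ _ (hA (b + 1)))
    have h3 : μ.real B ≤ μ.real ((C ∩ NC A S) \ ZV V S) := measureReal_mono sdiff_subset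
    have h4 : μ.real ((C ∩ NC A (insert (b + 1) S)) \ ZV V (insert (b + 1) S)) ≤ μ.real (B \ A (b + 1)) :=
      measureReal_mono hsub
    rw [Finset.card_insert_of_notMem ha, pow_succ]
    have h6 : (1 - l) * μ.real B ≤ (1 - l) * ((1 - l) ^ S.card * μ.real C) :=
      mul_le_mul_of_nonneg_left (h3.trans ih') (by linarith)
    calc μ.real ((C ∩ NC A (insert (b + 1) S)) \ ZV V (insert (b + 1) S)) ≤ μ.real (B \ A (b + 1)) := h4
      _ ≤ (1 - l) * μ.real B := by linarith
      _ ≤ _ := h6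
      _ = _ := by ring

end Pool.Agent.N285.GP
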