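import Mathlib
import Pool.Agent.N285.GP.Win
import Pool.Agent.N285.GP.Cnt

/-!
# Gaps between the indices of chosen places: the upper half
-/

set_option autoImplicit false
set_option linter.unusedSectionVars false

open MeasureTheory Filter Set
open scoped ENNReal Topology

namespace Pool.Agent.N285.GP

open Pool.Agent.R528.RM

variable {Ω : Type} {m0 : MeasurableSpace Ω} {μ : Measure Ω} [IsProbabilityMeasure μ]
  {ℱ : Filtration ℕ m0} {A : ℕ → Set Ω}

/-- the conditional probability is not within `η` of the profile -/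
def VP (μ : Measure Ω) (ℱ : Filtration ℕ m0) (A : ℕ → Set Ω) (ρ : ℕ → ℝ) (η : ℝ) (n : ℕ) : Set Ω :=
  {ω | η * ρ (n + 1) < |dens μ ℱ A n ω - ρ (n + 1)|}

lemma VP_meas (ρ : ℕ → ℝ) (η : ℝ) (n : ℕ) : MeasurableSet[ℱ n] (VP μ ℱ A ρ η n) := by
  have h1 : StronglyMeasurable[ℱ n] (fun ω => dens μ ℱ A n ω - ρ (n + 1)) :=
    (dens_meas n).sub (@stronglyMeasurable_const _ _ (ℱ n) _ _)
  have h2 : Measurable[ℱ n] (fun ω => |dens μ ℱ A n ω - ρ (n + 1)|) := h1.norm.measurable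
  exact h2 (measurableSet_Ioi (a := η * ρ (n + 1)))

lemma VP_bounds {ρ : ℕ → ℝ} {η : ℝ} {s : ℕ} (hs : 0 < s) {ω : Ω} (h : ω ∉ VP μ ℱ A ρ η (s - 1)) :
    (1 - η) * ρ s ≤ dens μ ℱ A (s - 1) ω ∧ dens μ ℱ A (s - 1) ω ≤ (1 + η) * ρ s := by
  simp only [VP, mem_ofPred_eq, not_lt] at h
  rw [show s - 1 + 1 = s by omega] at h
  have h2 := abs_le.1 h
  constructor <;> linarith [h2.1, h2.2]

lemma strict_from {F : ℕ → ℕ} {n₀ : ℕ} (h : ∀ n, n₀ ≤ n → F n < F (n + 1)) {a b : ℕ} (ha : n₀ ≤ a) (hab : a < b) :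
    F a < F b := by
  induction b, hab using Nat.le_induction with
  | base => exact h a ha
  | succ n hn ih => exact ih.trans (h n (by omega))

lemma F_ge {F : ℕ → ℕ} {n₀ : ℕ} (h : ∀ n, n₀ ≤ n → F n < F (n + 1)) (i : ℕ) : i ≤ F (n₀ + i) := by
  induction i with
  | zero => exact Nat.zero_le _
  | succ i ih =>
    have := h (n₀ + i) (by omega)
    rw [← add_assoc]
    omega

lemma F_top {F : ℕ → ℕ} {n₀ : ℕ} (h : ∀ n, n₀ ≤ n → F n < F (n + 1)) : Tendsto F atTop atTop := by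
  rw [tendsto_atTop]
  intro b
  filter_upwards [eventually_ge_atTop (n₀ + b)] with n hn
  obtain ⟨i, rfl⟩ : ∃ i, n = n₀ + i := ⟨n - n₀, by omega⟩
  exact le_trans (by omega) (F_ge h i)

lemma tlog : Tendsto (fun n : ℕ => Real.log n) atTop atTop :=
  Real.tendsto_log_atTop.comp tendsto_natCast_atTop_atTop

/-- short windows -/
lemma win_short {c : ℝ} (hc : 0 < c) : ∀ᶠ x : ℕ in atTop, (⌊c * Real.log x ^ 2⌋₊ : ℝ) ≤ x := by
  have h1 : ∀ᶠ x : ℝ in atTop, c * Real.log x ^ 2 ≤ x := by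
    have h2 := (Real.isLittleO_pow_log_id_atTop (n := 2)).def (show (0 : ℝ) < 1 / c by positivity)
    filter_upwards [h2, eventually_gt_atTop 0] with x hx hx0
    rw [Real.norm_of_nonneg (by positivity), id, Real.norm_of_nonneg hx0.le] at hx
    calc c * Real.log x ^ 2 ≤ c * (1 / c * x) := mul_le_mul_of_nonneg_left hx hc.le
      _ = x := by field_simp
  filter_upwards [tendsto_natCast_atTop_atTop.eventually h1] with n hn
  exact (Nat.floor_le (by positivity)).trans hn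

lemma log_win {x k H : ℕ} (hx : 0 < x) (h1 : x < k) (h2 : k ≤ x + H) (h3 : (H : ℝ) ≤ x) :
    Real.log x ≤ Real.log k ∧ Real.log k ≤ Real.log x + 1 := by
  have hx' : (0 : ℝ) < x := by exact_mod_cast hx
  have h1' : (x : ℝ) ≤ k := by exact_mod_cast h1.le
  have h2' : (k : ℝ) ≤ x + H := by exact_mod_cast h2
  refine ⟨Real.log_le_log hx' h1', ?_⟩
  have h4 : Real.log k ≤ Real.log (2 * x) := Real.log_le_log (by linarith) (by linarith)
  rw [Real.log_mul (by norm_num) hx'.ne'] at h4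
  have := Real.log_two_lt_d9
  linarith

/-- the profile in a window -/
lemma rho_win {ρ : ℕ → ℝ} {F : ℕ → ℕ} {g : ℕ → Prop} {β : ℝ} (hβ : 0 < β)
    (hρ : Tendsto (fun k : ℕ => ρ (F k) * Real.log k) (atTop ⊓ 𝓟 {k | g k}) (𝓝 β)) {c η : ℝ} (hc : 0 < c)
    (hη : 0 < η) (hη1 : η < 1) : ∀ᶠ x : ℕ in atTop, ∀ k, x < k → k ≤ x + ⌊c * Real.log x ^ 2⌋₊ → g k →
      (1 - η) * β / (Real.log x + 1) ≤ ρ (F k) ∧ ρ (F k) ≤ (1 + η) * β / Real.log x := by
  have h1 : ∀ᶠ k : ℕ in atTop ⊓ 𝓟 {k | g k}, (1 - η) * β < ρ (F k) * Real.log k ∧ ρ (F k) * Real.log k < (1 + η) * β := by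
    refine (hρ.eventually_const_lt ?_).and (hρ.eventually_lt_const ?_)
    · nlinarith
    · nlinarith
  rw [eventually_inf_principal] at h1
  obtain ⟨k₀, hk₀⟩ := eventually_atTop.1 h1
  filter_upwards [win_short hc, eventually_ge_atTop k₀, tlog.eventually_ge_atTop 1, eventually_gt_atTop 0] with x hx hxk hL hx0
  intro k hk1 hk2 hk3
  obtain ⟨h2, h3⟩ := hk₀ k (by omega) hk3
  obtain ⟨h4, h5⟩ := log_win hx0 hk1 hk2 hx
  have h6 : 0 < Real.log (k : ℝ) := by linarith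
  have hρ0 : 0 < ρ (F k) := by
    by_contra hcon
    push Not at hcon
    have : 0 < (1 - η) * β := mul_pos (by linarith) hβ
    nlinarith
  constructor
  · rw [div_le_iff₀ (by linarith)]
    nlinarith
  · rw [le_div_iff₀ (by linarith)]
    nlinarith

open Classical in
/-- the places of a window -/
noncomputable def SW (F : ℕ → ℕ) (g : ℕ → Prop) (c : ℝ) (x : ℕ) : Finset ℕ :=
  ((Finset.Ioc x (x + ⌊c * Real.log x ^ 2⌋₊)).filter g).image F

open Classical in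
lemma SW_card {F : ℕ → ℕ} {n₀ : ℕ} (hF : ∀ n, n₀ ≤ n → F n < F (n + 1)) (g : ℕ → Prop) (c : ℝ) {x : ℕ} (hx : n₀ ≤ x) :
    (SW F g c x).card = ((Finset.Ioc x (x + ⌊c * Real.log x ^ 2⌋₊)).filter g).card := by
  unfold SW
  apply Finset.card_image_of_injOn
  intro a ha b hb hab
  have ha' := (Finset.mem_Ioc.1 (Finset.mem_filter.1 (Finset.mem_coe.1 ha)).1).1
  have hb' := (Finset.mem_Ioc.1 (Finset.mem_filter.1 (Finset.mem_coe.1 hb)).1).1
  rcases lt_trichotomy a b with h | h | h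
  · exact absurd hab (strict_from hF (by omega) h).ne
  · exact h
  · exact absurd hab (strict_from hF (by omega) h).ne'

lemma mem_SW {F : ℕ → ℕ} {g : ℕ → Prop} {c : ℝ} {x s : ℕ} :
    s ∈ SW F g c x ↔ ∃ k, x < k ∧ k ≤ x + ⌊c * Real.log x ^ 2⌋₊ ∧ g k ∧ F k = s := by
  classical
  unfold SW
  simp only [Finset.mem_image, Finset.mem_filter, Finset.mem_Ioc]
  constructor
  · rintro ⟨k, ⟨⟨h1, h2⟩, h3⟩, h4⟩
    exact ⟨k, h1, h2, h3, h4⟩
  · rintro ⟨k, h1, h2, h3, h4⟩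
    exact ⟨k, ⟨⟨h1, h2⟩, h3⟩, h4⟩

open Classical in
/-- **no long gaps** -/
theorem gap_upper (hA : ∀ n, MeasurableSet[ℱ n] (A n)) (ρ : ℕ → ℝ)
    (hd : ∀ᵐ ω ∂μ, ∀ ε : ℝ, 0 < ε → ∀ᶠ n : ℕ in atTop, |dens μ ℱ A n ω - ρ (n + 1)| ≤ ε * ρ (n + 1))
    (F : ℕ → ℕ) (hF : ∀ᶠ n in atTop, F n < F (n + 1)) (g : ℕ → Prop) (W : ℕ) (hW : 0 < W)
    (hg : Function.Periodic g W) {β : ℝ} (hβ : 0 < β)
    (hρ : Tendsto (fun k : ℕ => ρ (F k) * Real.log k) (atTop ⊓ 𝓟 {k | g k}) (𝓝 β)) {c : ℝ} (hc0 : 0 < c)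
    (hc : 1 < c * ((Nat.count g W : ℝ) / W) * β) :
    ∀ᵐ ω ∂μ, ∀ᶠ x : ℕ in atTop, ∃ k : ℕ, x < k ∧ (k : ℝ) ≤ x + c * Real.log x ^ 2 ∧ ω ∈ A (F k) := by
  obtain ⟨n₀, hn₀⟩ := eventually_atTop.1 hF
  set δ : ℝ := (Nat.count g W : ℝ) / W with hδ
  set θ : ℝ := c * δ * β with hθ
  have hδ0 : 0 ≤ δ := by positivity
  set η : ℝ := min (1 / 2) ((θ - 1) / (4 * θ)) with hη
  have hη0 : 0 < η := lt_min (by norm_num) (div_pos (by linarith) (by linarith))
  have hη1 : η < 1 := (min_le_left _ _).trans_lt (by norm_num)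
  have hη2 : η * (4 * θ) ≤ θ - 1 := by
    have := min_le_right (1 / 2) ((θ - 1) / (4 * θ))
    rw [← hη, le_div_iff₀ (by linarith)] at this
    exact this
  set θ' : ℝ := (1 - η) ^ 2 * θ with hθ'
  have hθ'1 : 1 < θ' := by
    have : (1 - 2 * η) * θ ≤ θ' := by
      rw [hθ']
      apply mul_le_mul_of_nonneg_right _ (by linarith)
      nlinarith
    nlinarith
  set b : ℝ := (1 - η) ^ 2 * β with hb
  have hb0 : 0 < b := by
    have : 0 < 1 - η := by linarith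
    positivity
  set K : ℝ := b * (δ + W) with hK
  have hK0 : 0 ≤ K := by positivity
  set E : ℕ → Set Ω := fun x => (univ ∩ NC A (SW F g c x)) \ ZV (VP μ ℱ A ρ η) (SW F g c x) with hE
  have hprob : ∀ᶠ x : ℕ in atTop, μ.real (E x) ≤ Real.exp (θ' + K) * (1 / (x : ℝ) ^ θ') := by
    filter_upwards [rho_win hβ hρ hc0 hη0 hη1, eventually_ge_atTop (n₀ + 1), tlog.eventually_ge_atTop (max 1 b)] with x h1 h2 h3
    set L : ℝ := Real.log x with hL
    have hL1 : 1 ≤ L := (le_max_left _ _).trans h3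
    have hLb : b ≤ L := (le_max_right _ _).trans h3
    have hup := place_upper (μ := μ) hA (fun n => VP_meas (μ := μ) ρ η n) (l := b / (L + 1))
      (by rw [div_le_one (by linarith)]; linarith) 0 (@MeasurableSet.univ _ (ℱ 0)) (SW F g c x)
      (by
        intro s hs
        obtain ⟨k, k1, k2, k3, rfl⟩ := mem_SW.1 hs
        exact lt_of_le_of_lt (Nat.zero_le _) (strict_from hn₀ (show n₀ ≤ x by omega) k1))
      (by
        intro s hs ω hω
        obtain ⟨k, k1, k2, k3, rfl⟩ := mem_SW.1 hs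
        have hpos : 0 < F k := lt_of_le_of_lt (Nat.zero_le _) (strict_from hn₀ (show n₀ ≤ x by omega) k1)
        have h4 := (VP_bounds hpos hω).1
        have h5 := (h1 k k1 k2 k3).1
        refine le_trans ?_ h4
        calc b / (L + 1) = (1 - η) * ((1 - η) * β / (L + 1)) := by rw [hb]; ring
          _ ≤ _ := mul_le_mul_of_nonneg_left h5 (by linarith))
    refine hup.trans ?_
    rw [probReal_univ, mul_one, SW_card hn₀ g c (show n₀ ≤ x by omega)]
    refine (pow_le_exp (by linarith) (by linarith) _).trans ?_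
    set N : ℕ := ((Finset.Ioc x (x + ⌊c * L ^ 2⌋₊)).filter g).card with hN
    have hcw := (card_win g W hW hg x ⌊c * L ^ 2⌋₊).1
    rw [← hN, ← hδ] at hcw
    have hfl : c * L ^ 2 - 1 ≤ (⌊c * L ^ 2⌋₊ : ℝ) := (Nat.sub_one_lt_floor _).le
    have h6 : θ' * L ^ 2 - K ≤ b * N := by
      have e1 : θ' * L ^ 2 - K = b * (δ * (c * L ^ 2 - 1) - W) := by
        rw [hθ', hK, hθ, hb]
        ring
      rw [e1]
      apply mul_le_mul_of_nonneg_left _ hb0.le
      have := mul_le_mul_of_nonneg_left hfl hδ0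
      linarith
    have h7 := est_upper hb0.le (by linarith) hK0 hL1 h6
    have hx0 : (0 : ℝ) < x := by exact_mod_cast (show 0 < x by omega)
    have e2 : 1 / (x : ℝ) ^ θ' = Real.exp (-(θ' * L)) := by
      rw [Real.rpow_def_of_pos hx0, one_div, ← Real.exp_neg, mul_comm θ' L]
    rw [e2, ← Real.exp_add]
    apply Real.exp_le_exp.2
    linarith
  have hsum : ∑' x : ℕ, μ (E x) ≠ ∞ := by
    have h1 : Summable (fun x : ℕ => Real.exp (θ' + K) * (1 / (x : ℝ) ^ θ')) :=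
      (Real.summable_one_div_nat_rpow.2 hθ'1).mul_left _
    have h2 : Summable (fun x : ℕ => μ.real (E x)) := by
      refine Summable.of_norm_bounded_eventually_nat h1 ?_
      filter_upwards [hprob] with x hx
      rw [Real.norm_of_nonneg measureReal_nonneg]
      exact hx
    have h3 : ∑' x : ℕ, μ (E x) = ENNReal.ofReal (∑' x : ℕ, μ.real (E x)) := by
      rw [ENNReal.ofReal_tsum_of_nonneg (fun _ => measureReal_nonneg) h2]
      congr 1
      funext i
      exact (ofReal_measureReal (measure_ne_top _ _)).symm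
    rw [h3]
    exact ENNReal.ofReal_ne_top
  filter_upwards [ae_eventually_notMem hsum, hd] with ω h1 h2
  obtain ⟨m₀, hm₀⟩ := eventually_atTop.1 (h2 η hη0)
  filter_upwards [h1, (F_top hn₀).eventually_ge_atTop (m₀ + 1), eventually_ge_atTop n₀] with x hx hxm hxn
  by_contra hcon
  push Not at hcon
  apply hx
  refine ⟨⟨mem_univ _, fun s hs => ?_⟩, ?_⟩
  · obtain ⟨k, k1, k2, k3, rfl⟩ := mem_SW.1 hs
    apply hcon k k1
    have h3 : (⌊c * Real.log x ^ 2⌋₊ : ℝ) ≤ c * Real.log x ^ 2 := Nat.floor_le (by positivity)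
    have h4 : (k : ℝ) ≤ x + (⌊c * Real.log x ^ 2⌋₊ : ℝ) := by exact_mod_cast k2
    linarith
  · rintro ⟨s, hs, hs2⟩
    obtain ⟨k, k1, k2, k3, rfl⟩ := mem_SW.1 hs
    have h3 := strict_from hn₀ hxn k1
    have h4 := hm₀ (F k - 1) (by omega)
    simp only [VP, mem_ofPred_eq] at hs2
    linarith

end Pool.Agent.N285.GP
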