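import Mathlib
import Pool.Agent.N285.GP.Up

/-!
# Gaps between the indices of chosen places: the lower half
-/

set_option autoImplicit false
set_option linter.unusedSectionVars false

open MeasureTheory Filter Set
open scoped ENNReal Topology

namespace Pool.Agent.N285.GP

open Pool.Agent.R528.RM

variable {Ω : Type} {m0 : MeasurableSpace Ω} {μ : Measure Ω} [IsProbabilityMeasure μ]
  {ℱ : Filtration ℕ m0} {A : ℕ → Set Ω}

/-- the starts of the windows -/
noncomputable def st (τ : ℝ) (j : ℕ) : ℕ := ⌊(j : ℝ) ^ (1 + τ)⌋₊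

lemma st_mono {τ : ℝ} (hτ : 0 < τ) : Monotone (st τ) := fun a b hab =>
  Nat.floor_le_floor (Real.rpow_le_rpow (Nat.cast_nonneg _) (by exact_mod_cast hab) (by linarith))

lemma st_ge {τ : ℝ} (hτ : 0 < τ) (j : ℕ) : j ≤ st τ j := by
  rcases Nat.eq_zero_or_pos j with h | h
  · omega
  · apply Nat.le_floor
    have h1 : (1 : ℝ) ≤ j := by exact_mod_cast h
    calc (j : ℝ) = (j : ℝ) ^ (1 : ℝ) := (Real.rpow_one _).symm
      _ ≤ _ := Real.rpow_le_rpow_of_exponent_le h1 (by linarith)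

lemma st_log {τ : ℝ} (hτ : 0 < τ) {j : ℕ} (hj : 0 < j) : Real.log (st τ j) ≤ (1 + τ) * Real.log j := by
  have h1 : (0 : ℝ) < j := by exact_mod_cast hj
  have h2 : (st τ j : ℝ) ≤ (j : ℝ) ^ (1 + τ) := Nat.floor_le (by positivity)
  have h3 : (0 : ℝ) < st τ j := by exact_mod_cast lt_of_lt_of_le hj (st_ge hτ j)
  have h4 := Real.log_le_log h3 h2
  rwa [Real.log_rpow h1] at h4

lemma st_next {τ c : ℝ} (hτ : 0 < τ) (hc : 0 < c) :
    ∀ᶠ j : ℕ in atTop, st τ j + ⌊c * Real.log (st τ j) ^ 2⌋₊ ≤ st τ (j + 1) := by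
  -- `c log² (st j) ≤ j^τ - 1`
  have h1 : ∀ᶠ x : ℝ in atTop, c * (1 + τ) ^ 2 * Real.log x ^ 2 + 1 ≤ x ^ τ := by
    have h2 := (isLittleO_log_rpow_rpow_atTop (s := τ) 2 hτ).def (show (0 : ℝ) < 1 / (2 * c * (1 + τ) ^ 2) by positivity)
    have h3 : ∀ᶠ x : ℝ in atTop, 2 ≤ x ^ τ := (tendsto_rpow_atTop hτ).eventually_ge_atTop 2
    filter_upwards [h2, h3, eventually_gt_atTop 1] with x hx hx3 hx0
    have hlog : 0 ≤ Real.log x := Real.log_nonneg hx0.le
    rw [Real.norm_of_nonneg (by positivity), Real.norm_of_nonneg (by positivity), Real.rpow_two] at hx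
    have h4 : c * (1 + τ) ^ 2 * Real.log x ^ 2 ≤ c * (1 + τ) ^ 2 * (1 / (2 * c * (1 + τ) ^ 2) * x ^ τ) :=
      mul_le_mul_of_nonneg_left hx (by positivity)
    have h5 : c * (1 + τ) ^ 2 * (1 / (2 * c * (1 + τ) ^ 2) * x ^ τ) = x ^ τ / 2 := by
      have : (1 + τ) ≠ 0 := by linarith
      field_simp
    linarith
  filter_upwards [tendsto_natCast_atTop_atTop.eventually h1, eventually_gt_atTop 0] with j hj hj0
  have hj0' : (0 : ℝ) < j := by exact_mod_cast hj0
  have h2 : (st τ j : ℝ) ≤ (j : ℝ) ^ (1 + τ) := Nat.floor_le (by positivity)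
  have h3 : 0 ≤ Real.log (st τ j) := Real.log_natCast_nonneg _
  have h4 := st_log hτ hj0
  have h5 : c * Real.log (st τ j) ^ 2 ≤ c * (1 + τ) ^ 2 * Real.log j ^ 2 := by
    have : Real.log (st τ j) ^ 2 ≤ ((1 + τ) * Real.log j) ^ 2 := pow_le_pow_left₀ h3 h4 2
    calc c * Real.log (st τ j) ^ 2 ≤ c * ((1 + τ) * Real.log j) ^ 2 := mul_le_mul_of_nonneg_left this hc.le
      _ = _ := by ring
  have h6 : (⌊c * Real.log (st τ j) ^ 2⌋₊ : ℝ) ≤ c * Real.log (st τ j) ^ 2 := Nat.floor_le (by positivity)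
  have h7 : (j : ℝ) ^ (1 + τ) + (j : ℝ) ^ τ ≤ ((j + 1 : ℕ) : ℝ) ^ (1 + τ) := by
    push_cast
    rw [Real.rpow_add hj0', Real.rpow_add (by positivity : (0 : ℝ) < j + 1), Real.rpow_one, Real.rpow_one]
    have h8 : (j : ℝ) ^ τ ≤ ((j : ℝ) + 1) ^ τ := Real.rpow_le_rpow hj0'.le (by linarith) hτ.le
    nlinarith
  apply Nat.le_floor
  push_cast
  push_cast at h7
  linarith

open Classical in
/-- **long gaps infinitely often** -/
theorem gap_lower (hA : ∀ n, MeasurableSet[ℱ n] (A n)) (ρ : ℕ → ℝ)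
    (hd : ∀ᵐ ω ∂μ, ∀ ε : ℝ, 0 < ε → ∀ᶠ n : ℕ in atTop, |dens μ ℱ A n ω - ρ (n + 1)| ≤ ε * ρ (n + 1))
    (F : ℕ → ℕ) (hF : ∀ᶠ n in atTop, F n < F (n + 1)) (g : ℕ → Prop) (W : ℕ) (hW : 0 < W)
    (hg : Function.Periodic g W) {β : ℝ} (hβ : 0 < β)
    (hρ : Tendsto (fun k : ℕ => ρ (F k) * Real.log k) (atTop ⊓ 𝓟 {k | g k}) (𝓝 β))
    (hz : ∀ᶠ k in atTop, ¬ g k → A (F k) = ∅) {c : ℝ} (hc0 : 0 < c)
    (hc : c * ((Nat.count g W : ℝ) / W) * β < 1) :
    ∀ᵐ ω ∂μ, ∃ᶠ x : ℕ in atTop, ∀ k : ℕ, x < k → (k : ℝ) ≤ x + c * Real.log x ^ 2 → ω ∉ A (F k) := by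
  obtain ⟨n₀, hn₀⟩ := eventually_atTop.1 hF
  set δ : ℝ := (Nat.count g W : ℝ) / W with hδ
  set θ : ℝ := c * δ * β with hθ
  have hδ0 : 0 ≤ δ := by positivity
  have hθ0 : 0 ≤ θ := by positivity
  set η : ℝ := (1 - θ) / 6 with hη
  have hη0 : 0 < η := by simp only [hη]; linarith
  have hη1 : η < 1 := by simp only [hη]; linarith
  set θ' : ℝ := (1 + η) ^ 2 * θ with hθ'
  have hθ'1 : θ' < 1 := by
    have e : θ = 1 - 6 * η := by rw [hη]; ring
    rw [hθ', e]
    nlinarith [mul_pos hη0 hη0, mul_pos (mul_pos hη0 hη0) hη0]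
  have hθ'0 : 0 ≤ θ' := by positivity
  set τ : ℝ := (1 - θ') / 2 with hτ
  have hτ0 : 0 < τ := by simp only [hτ]; linarith
  set b : ℝ := (1 + η) ^ 2 * β with hb
  have hb0 : 0 < b := by positivity
  set K : ℝ := b * W with hK
  have hK0 : 0 ≤ K := by positivity
  -- the windows
  have hwin : ∀ᶠ x : ℕ in atTop, ∀ C, MeasurableSet[ℱ (F x)] C →
      Real.exp (-(2 * b * θ' + K)) * Real.exp (-(θ' * Real.log x)) * μ.real C ≤
        μ.real (C ∩ (NC A (SW F g c x) ∪ ZV (VP μ ℱ A ρ η) (SW F g c x))) := by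
    filter_upwards [rho_win hβ hρ hc0 hη0 hη1, eventually_ge_atTop n₀, tlog.eventually_ge_atTop (max (b + 1) (2 * b))] with x h1 h2 h3
    intro C hC
    set L : ℝ := Real.log x with hL
    have hL1 : b + 1 ≤ L := (le_max_left _ _).trans h3
    have hLb : 2 * b ≤ L := (le_max_right _ _).trans h3
    have hlo := place_lower (μ := μ) hA (fun n => VP_meas (μ := μ) ρ η n) (u := b / L)
      (div_nonneg hb0.le (by linarith)) (by rw [div_le_one (by linarith)]; linarith) (F x) hC (SW F g c x)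
      (by
        intro s hs
        obtain ⟨k, k1, k2, k3, rfl⟩ := mem_SW.1 hs
        exact strict_from hn₀ h2 k1)
      (by
        intro s hs ω hω
        obtain ⟨k, k1, k2, k3, rfl⟩ := mem_SW.1 hs
        have hpos : 0 < F k := lt_of_le_of_lt (Nat.zero_le _) (strict_from hn₀ h2 k1)
        have h4 := (VP_bounds hpos hω).2
        have h5 := (h1 k k1 k2 k3).2
        refine le_trans h4 ?_
        calc (1 + η) * ρ (F k) ≤ (1 + η) * ((1 + η) * β / L) := mul_le_mul_of_nonneg_left h5 (by linarith)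
          _ = b / L := by rw [hb]; ring)
    refine le_trans ?_ hlo
    apply mul_le_mul_of_nonneg_right _ measureReal_nonneg
    rw [SW_card hn₀ g c h2]
    refine le_trans ?_ (pow_ge_exp hb0.le hL1 _)
    set N : ℕ := ((Finset.Ioc x (x + ⌊c * L ^ 2⌋₊)).filter g).card with hN
    have hcw := (card_win g W hW hg x ⌊c * L ^ 2⌋₊).2
    rw [← hN, ← hδ] at hcw
    have hfl : (⌊c * L ^ 2⌋₊ : ℝ) ≤ c * L ^ 2 := Nat.floor_le (by positivity)
    have h6 : b * N ≤ θ' * L ^ 2 + K := by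
      have e1 : θ' * L ^ 2 + K = b * (δ * (c * L ^ 2) + W) := by
        rw [hθ', hK, hθ, hb]
        ring
      rw [e1]
      apply mul_le_mul_of_nonneg_left _ hb0.le
      have := mul_le_mul_of_nonneg_left hfl hδ0
      linarith
    have h7 := est_lower hb0.le hθ'0 hK0 hL1 hLb h6
    rw [← Real.exp_add]
    apply Real.exp_le_exp.2
    linarith
  obtain ⟨x₀, hx₀⟩ := eventually_atTop.1 hwin
  obtain ⟨j₁, hj₁⟩ := eventually_atTop.1 (st_next hτ0 hc0)
  set j₀ : ℕ := max (max x₀ n₀) (max j₁ 1) with hj₀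
  have e1 : x₀ ≤ j₀ := (le_max_left _ _).trans (le_max_left _ _)
  have e2 : n₀ ≤ j₀ := (le_max_right _ _).trans (le_max_left _ _)
  have e3 : j₁ ≤ j₀ := (le_max_left _ _).trans (le_max_right _ _)
  have e4 : 1 ≤ j₀ := (le_max_right _ _).trans (le_max_right _ _)
  set s : ℕ → ℕ := fun j => F (st τ (max j j₀)) with hs
  have hstn : ∀ j, j₀ ≤ j → n₀ ≤ st τ j := fun j hj => (e2.trans hj).trans (st_ge hτ0 j)
  have Fmono : ∀ a b, n₀ ≤ a → a ≤ b → F a ≤ F b := by
    intro a b ha hab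
    rcases hab.lt_or_eq with h | h
    · exact (strict_from hn₀ ha h).le
    · rw [h]
  have hsm : Monotone s := by
    intro a b hab
    have h1 : max a j₀ ≤ max b j₀ := max_le_max_right _ hab
    exact Fmono _ _ (hstn _ (le_max_right _ _)) (st_mono hτ0 h1)
  set D : ℕ → Set Ω := fun j => if j₀ ≤ j then (NC A (SW F g c (st τ j)) ∪ ZV (VP μ ℱ A ρ η) (SW F g c (st τ j))) else ∅ with hD
  have hDm : ∀ j, MeasurableSet[ℱ (s (j + 1))] (D j) := by
    intro j
    simp only [hD]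
    by_cases h : j₀ ≤ j
    · rw [if_pos h]
      have hle : ∀ t ∈ SW F g c (st τ j), t ≤ s (j + 1) := by
        intro t ht
        obtain ⟨k, k1, k2, k3, rfl⟩ := mem_SW.1 ht
        simp only [hs]
        rw [max_eq_left (by omega)]
        exact Fmono _ _ ((hstn j h).trans k1.le) (k2.trans (hj₁ j (e3.trans h)))
      exact (NC_meas hA _ _ hle).union (ZV_meas (fun n => VP_meas (μ := μ) ρ η n) _ _ hle)
    · rw [if_neg h]
      exact @MeasurableSet.empty _ (ℱ (s (j + 1)))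
  set q : ℝ := Real.exp (-(2 * b * θ' + K)) with hq
  have hq0 : 0 < q := Real.exp_pos _
  have hpj : ∀ j, j₀ ≤ j → ∀ C, MeasurableSet[ℱ (s j)] C → q * (1 / (j : ℝ)) * μ.real C ≤ μ.real (C ∩ D j) := by
    intro j hj C hC
    have esj : s j = F (st τ j) := by
      simp only [hs]
      rw [max_eq_left hj]
    rw [esj] at hC
    have h1 := hx₀ (st τ j) ((e1.trans hj).trans (st_ge hτ0 j)) C hC
    simp only [hD]
    rw [if_pos hj]
    refine le_trans ?_ h1
    apply mul_le_mul_of_nonneg_right _ measureReal_nonneg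
    apply mul_le_mul_of_nonneg_left _ hq0.le
    have hj0 : 0 < j := by omega
    have hj0' : (0 : ℝ) < j := by exact_mod_cast hj0
    have h2 : 1 / (j : ℝ) = Real.exp (-Real.log j) := by rw [Real.exp_neg, Real.exp_log hj0', one_div]
    rw [h2]
    apply Real.exp_le_exp.2
    have h3 := st_log hτ0 hj0
    have h4 : 0 ≤ Real.log (j : ℝ) := Real.log_natCast_nonneg j
    have h5 : θ' * Real.log (st τ j) ≤ θ' * ((1 + τ) * Real.log j) := mul_le_mul_of_nonneg_left h3 hθ'0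
    have h6 : θ' * (1 + τ) ≤ 1 := by
      have : θ' = 1 - 2 * τ := by rw [hτ]; ring
      rw [this]
      nlinarith
    nlinarith
  have hsum : Tendsto (fun N => ∑ j ∈ Finset.range N, q * (1 / (j : ℝ))) atTop atTop := by
    simp_rw [← Finset.mul_sum]
    apply Tendsto.const_mul_atTop hq0
    rw [← tendsto_add_atTop_iff_nat 1]
    refine Real.tendsto_sum_range_one_div_nat_succ_atTop.congr fun N => ?_
    rw [Finset.sum_range_succ' (fun j : ℕ => 1 / (j : ℝ)) N]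
    push_cast
    rw [div_zero, add_zero]
  have hio := Pool.Agent.N740.HK.trials_io (μ := μ) (ℱ := ℱ) hsm hDm (p := fun j => q * (1 / (j : ℝ))) (k₀ := j₀) hpj hsum
  filter_upwards [hio, hd] with ω h1 h2
  obtain ⟨m₀, hm₀⟩ := eventually_atTop.1 (h2 η hη0)
  obtain ⟨m₁, hm₁⟩ := eventually_atTop.1 ((F_top hn₀).eventually_ge_atTop (m₀ + 1))
  obtain ⟨m₂, hm₂⟩ := eventually_atTop.1 hz
  rw [Filter.frequently_atTop]
  intro M
  obtain ⟨j, hj, hjD⟩ := h1 (max (max M j₀) (max m₁ m₂))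
  have k1 : M ≤ j := ((le_max_left _ _).trans (le_max_left _ _)).trans hj
  have k2 : j₀ ≤ j := ((le_max_right _ _).trans (le_max_left _ _)).trans hj
  have k3 : m₁ ≤ j := ((le_max_left _ _).trans (le_max_right _ _)).trans hj
  have k4 : m₂ ≤ j := ((le_max_right _ _).trans (le_max_right _ _)).trans hj
  refine ⟨st τ j, k1.trans (st_ge hτ0 j), ?_⟩
  simp only [hD] at hjD
  rw [if_pos k2] at hjD
  have hstj := st_ge hτ0 j
  rcases hjD with h3 | ⟨t, ht, ht2⟩
  · intro k hk1 hk2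
    by_cases hgk : g k
    · apply h3 (F k)
      rw [mem_SW]
      refine ⟨k, hk1, ?_, hgk, rfl⟩
      have h5 : ((k - st τ j : ℕ) : ℝ) ≤ c * Real.log (st τ j) ^ 2 := by
        rw [Nat.cast_sub hk1.le]
        linarith
      have := Nat.le_floor h5
      omega
    · rw [hm₂ k (by omega) hgk]
      exact notMem_empty ω
  · exfalso
    obtain ⟨k, g1, g2, g3, rfl⟩ := mem_SW.1 ht
    have h4 := hm₁ k (by omega)
    have h5 := hm₀ (F k - 1) (by omega)
    simp only [VP, mem_ofPred_eq] at ht2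
    linarith

end Pool.Agent.N285.GP
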