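import Mathlib
import Pool.Agent.N285.GP.Lo
import Pool.Agent.R528.RM.BHOut

/-!
# Gaps between the arguments with chosen polynomial values in the sieved models
-/

set_option autoImplicit false
set_option linter.unusedSectionVars false

open MeasureTheory Filter Set Polynomial
open scoped ENNReal Topology

namespace Pool.Agent.N285.GP

open Pool.Agent.R528.RM

/-- the gaps of a set of integers from the windows -/
lemma nth_gaps {K : Set ℕ} {κ : ℝ} (hκ : 0 < κ)
    (hu : ∀ c : ℝ, κ < c → ∀ᶠ x : ℕ in atTop, ∃ k : ℕ, x < k ∧ (k : ℝ) ≤ x + c * Real.log x ^ 2 ∧ k ∈ K)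
    (hl : ∀ c : ℝ, 0 < c → c < κ → ∃ᶠ x : ℕ in atTop, ∀ k : ℕ, x < k → (k : ℝ) ≤ x + c * Real.log x ^ 2 → k ∉ K) :
    K.Infinite ∧ ∀ ε : ℝ, 0 < ε →
      (∀ᶠ j : ℕ in atTop, (pn K (j + 1) : ℝ) - pn K j ≤ (κ + ε) * Real.log (pn K j) ^ 2) ∧
      ∃ᶠ j : ℕ in atTop, (κ - ε) * Real.log (pn K j) ^ 2 ≤ (pn K (j + 1) : ℝ) - pn K j := by
  have hinf : K.Infinite := by
    apply (Nat.frequently_atTop_iff_infinite (p := fun k => k ∈ K)).1
    rw [Filter.frequently_atTop]
    intro a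
    obtain ⟨x, hx, hxa⟩ := ((hu (κ + 1) (by linarith)).and (eventually_ge_atTop a)).exists
    obtain ⟨k, hk1, _, hk3⟩ := hx
    exact ⟨k, by omega, hk3⟩
  refine ⟨hinf, fun ε hε => ⟨?_, ?_⟩⟩
  · have h1 := (tendsto_nth hinf).eventually (hu (κ + ε) (by linarith))
    filter_upwards [h1] with j hj
    obtain ⟨k, hk1, hk2, hk3⟩ := hj
    obtain ⟨i, rfl⟩ := exists_nth hk3
    have h2 : j < i := (nth_mono hinf).lt_iff_lt.1 hk1
    have h3 : pn K (j + 1) ≤ pn K i := (nth_mono hinf).monotone h2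
    have h3' : (pn K (j + 1) : ℝ) ≤ pn K i := by exact_mod_cast h3
    linarith
  · rw [Filter.frequently_atTop]
    intro J
    rcases le_or_gt (κ - ε) 0 with h | h
    · refine ⟨J, le_rfl, ?_⟩
      have h2 : (pn K J : ℝ) ≤ pn K (J + 1) := by exact_mod_cast (nth_mono hinf (Nat.lt_succ_self J)).le
      have h3 : (κ - ε) * Real.log (pn K J) ^ 2 ≤ 0 := mul_nonpos_of_nonpos_of_nonneg h (sq_nonneg _)
      linarith
    · have hlo := hl (κ - ε) h (by linarith)
      rw [Filter.frequently_atTop] at hlo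
      obtain ⟨x, hx1, hx2⟩ := hlo (pn K J + 1)
      -- the last member not exceeding `x`
      have hex : ∃ i, x < pn K i := by
        obtain ⟨i, hi⟩ := ((tendsto_nth hinf).eventually_gt_atTop x).exists
        exact ⟨i, hi⟩
      classical
      set i := Nat.find hex with hi
      have h1 : x < pn K i := Nat.find_spec hex
      have h2 : J < i := by
        rw [← (nth_mono hinf).lt_iff_lt]
        omega
      obtain ⟨j, hj⟩ : ∃ j, i = j + 1 := ⟨i - 1, by omega⟩
      have h3 : pn K j ≤ x := by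
        have := Nat.find_min hex (m := j) (by omega)
        omega
      refine ⟨j, by omega, ?_⟩
      rw [← hj]
      have h4 : (x : ℝ) + (κ - ε) * Real.log x ^ 2 < pn K i := by
        by_contra hcon
        push Not at hcon
        exact hx2 (pn K i) h1 hcon (nth_mem hinf i)
      have h5 : (pn K j : ℝ) ≤ x := by exact_mod_cast h3
      have h7 : Real.log (pn K j) ^ 2 ≤ Real.log x ^ 2 := by
        rcases Nat.eq_zero_or_pos (pn K j) with h6 | h6
        · rw [h6, Nat.cast_zero, Real.log_zero]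
          have := sq_nonneg (Real.log (x : ℝ))
          simpa using this
        · apply pow_le_pow_left₀ (Real.log_natCast_nonneg _)
          exact Real.log_le_log (by exact_mod_cast h6) h5
      nlinarith


variable {Ω : Type} {m0 : MeasurableSpace Ω} {μ : Measure Ω} [IsProbabilityMeasure μ]
  {ℱ : Filtration ℕ m0} {A : ℕ → Set Ω}

/-- the set of the arguments `k ≥ 1` for which `f(k)` is chosen -/
def argSet (S : Set ℕ) (f : ℤ[X]) : Set ℕ := {k | 1 ≤ k ∧ ∃ q ∈ S, (q : ℤ) = f.eval (k : ℤ)}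

lemma mem_arg (f : ℤ[X]) (hl : 0 < f.leadingCoeff) (S : Set ℕ) :
    ∀ᶠ k : ℕ in atTop, (k ∈ argSet S f ↔ pv f k ∈ S) := by
  filter_upwards [ev_pos_int f hl, eventually_ge_atTop 1] with k hk hk1
  have h9 : ((pv f k : ℕ) : ℤ) = f.eval (k : ℤ) := Int.toNat_of_nonneg hk.le
  constructor
  · rintro ⟨_, q, hq, hq2⟩
    have : q = pv f k := by
      have : (q : ℤ) = (pv f k : ℤ) := by rw [hq2, h9]
      exact_mod_cast this
    rwa [← this]
  · intro h
    exact ⟨hk1, pv f k, h, h9⟩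

/-- the number of zeros modulo `p` -/
noncomputable def omega (f : ℤ[X]) (p : ℕ) : ℕ := {r : ℕ | r < p ∧ (p : ℤ) ∣ f.eval (r : ℤ)}.ncard

/-- the local constant -/
noncomputable def CQ (Q : Finset ℕ) (f : ℤ[X]) : ℝ := ∏ p ∈ Q, (1 - (omega f p : ℝ) / p) / (1 - 1 / (p : ℝ))

lemma omega_eq (f : ℤ[X]) (p : ℕ) : omegaF {f} p = omega f p := by
  unfold omegaF omega
  simp_rw [Finset.prod_singleton]

lemma bhConst_eq (Q : Finset ℕ) (hQ : ∀ p ∈ Q, p.Prime) (f : ℤ[X]) :
    bhConst (∏ p ∈ Q, p) {f} = CQ Q f / f.natDegree := by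
  unfold bhConst CQ
  rw [← mul_assoc, const_prod {f} Q hQ, Finset.prod_singleton, div_eq_mul_inv _ (f.natDegree : ℝ)]
  congr 1
  refine Finset.prod_congr rfl fun p hp => ?_
  have h4 := omega_good {f} (hQ p hp)
  rw [omega_eq] at h4
  have h5 : (Nat.count (good {f} p) p : ℝ) + omega f p = p := by exact_mod_cast h4
  have h6 : (0 : ℝ) < p := by exact_mod_cast (hQ p hp).pos
  have h7 : (Nat.count (good {f} p) p : ℝ) / p = 1 - (omega f p : ℝ) / p := by
    field_simp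
    linarith
  rw [h7, Finset.card_singleton, pow_one]
  exact (div_eq_mul_inv _ _).symm

lemma CQ_pos (Q : Finset ℕ) (hQ : ∀ p ∈ Q, p.Prime) (f : ℤ[X]) (hf : ∀ p ∈ Q, ∃ r : ℤ, ¬ (p : ℤ) ∣ f.eval r) :
    0 < CQ Q f := by
  unfold CQ
  refine Finset.prod_pos fun p hp => ?_
  have h1 : (1 : ℝ) < p := by exact_mod_cast (hQ p hp).one_lt
  have h2 : 0 < 1 - 1 / (p : ℝ) := by
    rw [sub_pos, div_lt_one (by linarith)]
    exact h1
  refine div_pos ?_ h2
  rw [sub_pos, div_lt_one (by linarith)]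
  obtain ⟨r, hr⟩ := hf p hp
  have hp0 : (0 : ℤ) < p := by exact_mod_cast (hQ p hp).pos
  set r₀ : ℕ := (r % p).toNat with hr₀
  have e1 : (r₀ : ℤ) = r % p := Int.toNat_of_nonneg (Int.emod_nonneg _ hp0.ne')
  have e2 : r₀ < p := by
    have : (r₀ : ℤ) < p := by rw [e1]; exact Int.emod_lt_of_pos _ hp0
    exact_mod_cast this
  have e3 : ¬ (p : ℤ) ∣ f.eval (r₀ : ℤ) := by
    intro h
    apply hr
    have h3 : (p : ℤ) ∣ f.eval r - f.eval (r₀ : ℤ) := by
      refine dvd_trans ?_ (Polynomial.sub_dvd_eval_sub r (r₀ : ℤ) f)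
      rw [e1]
      exact Int.dvd_self_sub_emod
    have := dvd_add h3 h
    rwa [sub_add_cancel] at this
  have h3 : omega f p < p := by
    unfold omega
    have hfin : (↑(Finset.range p) : Set ℕ).Finite := Finset.finite_toSet _
    have hlt : {r : ℕ | r < p ∧ (p : ℤ) ∣ f.eval (r : ℤ)} ⊂ (↑(Finset.range p) : Set ℕ) := by
      refine ⟨fun r hr => by simpa using hr.1, fun h => ?_⟩
      have : r₀ ∈ (↑(Finset.range p) : Set ℕ) := by simpa using e2
      exact e3 (h this).2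
    have := Set.ncard_lt_ncard hlt hfin
    rwa [Set.ncard_coe_finset, Finset.card_range] at this
  exact_mod_cast h3

/-- the profile along a polynomial -/
lemma rho_pv (W : ℕ) (hW : 0 < W) (f : ℤ[X]) (hd : 0 < f.natDegree) (hl : 0 < f.leadingCoeff) :
    Tendsto (fun k : ℕ => rhoW W (pv f k) * Real.log k) (atTop ⊓ 𝓟 {k | good {f} W k})
      (𝓝 (((W : ℝ) / Nat.totient W) * (f.natDegree : ℝ)⁻¹)) := by
  set c := (W : ℝ) / Nat.totient W with hc
  have hcpos : 0 < c := div_pos (by exact_mod_cast hW) (by exact_mod_cast Nat.totient_pos.2 hW)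
  have h3 := pv_log f hl
  have hdpos : (0 : ℝ) < f.natDegree := by exact_mod_cast hd
  have h4 := (h3.inv₀ hdpos.ne').const_mul c
  have h4' := h4.mono_left (inf_le_left : atTop ⊓ 𝓟 {k | good {f} W k} ≤ atTop)
  refine h4'.congr' ?_
  have h5 : Tendsto (fun n : ℕ => Real.log (pv f n)) atTop atTop := by
    have h6 := h3.pos_mul_atTop hdpos tlog
    refine h6.congr' ?_
    filter_upwards [eventually_gt_atTop 1] with n hn
    have hn' : (1 : ℝ) < n := by exact_mod_cast hn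
    have hl : 0 < Real.log (n : ℝ) := Real.log_pos hn'
    field_simp
  have hgp := good_pv {f} W (fun g hg => by rw [Finset.mem_singleton.1 hg]; exact hl)
  rw [EventuallyEq, eventually_inf_principal]
  filter_upwards [h5.eventually_ge_atTop c, h5.eventually_gt_atTop 0, eventually_gt_atTop 1, hgp] with n hn1 hn2 hn3 hn4 hn5
  have hn' : (1 : ℝ) < n := by exact_mod_cast hn3
  have hl : 0 < Real.log (n : ℝ) := Real.log_pos hn'
  have hcp : Nat.Coprime (pv f n) W := hn4.1 hn5 f (Finset.mem_singleton_self f)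
  unfold rhoW
  rw [if_pos hcp, min_eq_right ((div_le_one hn2).2 hn1)]
  field_simp

/-- **the gaps between the arguments with chosen values, for all polynomials** -/
theorem poly_gaps (hA : ∀ n, MeasurableSet[ℱ n] (A n)) (W : ℕ) (hW : 0 < W)
    (hcop : ∀ n, ¬ Nat.Coprime n W → A n = ∅)
    (hd : ∀ᵐ ω ∂μ, Tendsto (fun n : ℕ => dens μ ℱ A n ω * Real.log n)
      (atTop ⊓ 𝓟 {n : ℕ | Nat.Coprime (n + 1) W}) (𝓝 ((W : ℝ) / Nat.totient W))) :
    ∀ᵐ ω ∂μ, ∀ f : ℤ[X], 0 < f.natDegree → 0 < f.leadingCoeff → 0 < bhConst W {f} →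
      (argSet {a | ω ∈ A a} f).Infinite ∧ ∀ ε : ℝ, 0 < ε →
      (∀ᶠ j : ℕ in atTop, (pn (argSet {a | ω ∈ A a} f) (j + 1) : ℝ) - pn (argSet {a | ω ∈ A a} f) j ≤
        ((bhConst W {f})⁻¹ + ε) * Real.log (pn (argSet {a | ω ∈ A a} f) j) ^ 2) ∧
      ∃ᶠ j : ℕ in atTop, ((bhConst W {f})⁻¹ - ε) * Real.log (pn (argSet {a | ω ∈ A a} f) j) ^ 2 ≤
        (pn (argSet {a | ω ∈ A a} f) (j + 1) : ℝ) - pn (argSet {a | ω ∈ A a} f) j := by
  classical
  have hprof := dens_profile (μ := μ) hA W hW hcop hd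
  have hcpos : 0 < (W : ℝ) / Nat.totient W := div_pos (by exact_mod_cast hW) (by exact_mod_cast Nat.totient_pos.2 hW)
  have key : ∀ f : ℤ[X], 0 < f.natDegree → 0 < f.leadingCoeff →
      bhConst W {f} = ((Nat.count (good {f} W) W : ℝ) / W) * (((W : ℝ) / Nat.totient W) * (f.natDegree : ℝ)⁻¹) := by
    intro f _ _
    unfold bhConst
    rw [Finset.card_singleton, pow_one, Finset.prod_singleton]
  have : Countable ℤ[X] := by
    rw [← Cardinal.mk_le_aleph0_iff]
    refine Polynomial.cardinalMk_le_max.trans ?_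
    rw [max_le_iff]
    exact ⟨Cardinal.mk_le_aleph0, le_rfl⟩
  have hup : ∀ᵐ ω ∂μ, ∀ f : ℤ[X], ∀ c : ℚ, 0 < f.natDegree → 0 < f.leadingCoeff → 0 < bhConst W {f} →
      (bhConst W {f})⁻¹ < c →
      ∀ᶠ x : ℕ in atTop, ∃ k : ℕ, x < k ∧ (k : ℝ) ≤ x + c * Real.log x ^ 2 ∧ ω ∈ A (pv f k) := by
    rw [ae_all_iff]
    intro f
    rw [ae_all_iff]
    intro c
    by_cases h : 0 < f.natDegree ∧ 0 < f.leadingCoeff ∧ 0 < bhConst W {f} ∧ (bhConst W {f})⁻¹ < c
    · obtain ⟨h1, h2, h3, h4⟩ := h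
      have hc0 : (0 : ℝ) < c := lt_trans (inv_pos.2 h3) h4
      have h5 := gap_upper (μ := μ) hA (rhoW W) hprof (pv f) (pv_mono f h1 h2) (good {f} W) W hW
        (good_periodic {f} W) (mul_pos hcpos (inv_pos.2 (by exact_mod_cast h1))) (rho_pv W hW f h1 h2) hc0 (by
          rw [mul_assoc, ← key f h1 h2]
          rw [inv_lt_iff_one_lt_mul₀ h3] at h4
          linarith)
      filter_upwards [h5] with ω hω _ _ _ _
      exact hω
    · exact Eventually.of_forall fun ω h1 h2 h3 h4 => absurd ⟨h1, h2, h3, h4⟩ h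
  have hlo : ∀ᵐ ω ∂μ, ∀ f : ℤ[X], ∀ c : ℚ, 0 < f.natDegree → 0 < f.leadingCoeff → 0 < bhConst W {f} →
      (0 : ℝ) < c → c < (bhConst W {f})⁻¹ →
      ∃ᶠ x : ℕ in atTop, ∀ k : ℕ, x < k → (k : ℝ) ≤ x + c * Real.log x ^ 2 → ω ∉ A (pv f k) := by
    rw [ae_all_iff]
    intro f
    rw [ae_all_iff]
    intro c
    by_cases h : 0 < f.natDegree ∧ 0 < f.leadingCoeff ∧ 0 < bhConst W {f} ∧ (0 : ℝ) < c ∧ c < (bhConst W {f})⁻¹
    · obtain ⟨h1, h2, h3, h0, h4⟩ := h
      have hz : ∀ᶠ k in atTop, ¬ good {f} W k → A (pv f k) = ∅ := by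
        filter_upwards [good_pv {f} W (fun g hg => by rw [Finset.mem_singleton.1 hg]; exact h2)] with k hk hk2
        apply hcop
        intro h5
        exact hk2 (hk.2 (fun g hg => by rw [Finset.mem_singleton.1 hg]; exact h5))
      have h5 := gap_lower (μ := μ) hA (rhoW W) hprof (pv f) (pv_mono f h1 h2) (good {f} W) W hW
        (good_periodic {f} W) (mul_pos hcpos (inv_pos.2 (by exact_mod_cast h1))) (rho_pv W hW f h1 h2) hz h0 (by
          rw [mul_assoc, ← key f h1 h2]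
          have := mul_lt_mul_of_pos_right h4 h3
          rwa [inv_mul_cancel₀ h3.ne'] at this)
      filter_upwards [h5] with ω hω _ _ _ _ _
      exact hω
    · exact Eventually.of_forall fun ω h1 h2 h3 h4 h5 => absurd ⟨h1, h2, h3, h4, h5⟩ h
  filter_upwards [hup, hlo] with ω g1 g2 f h1 h2 h3
  obtain ⟨M, hM⟩ := eventually_atTop.1 (mem_arg f h2 {a | ω ∈ A a})
  apply nth_gaps (inv_pos.2 h3)
  · intro c hc
    obtain ⟨r, hr1, hr2⟩ := exists_rat_btwn hc
    filter_upwards [g1 f r h1 h2 h3 hr1, eventually_ge_atTop M] with x hx hxM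
    obtain ⟨k, k1, k2, k3⟩ := hx
    refine ⟨k, k1, ?_, (hM k (by omega)).2 k3⟩
    have : (r : ℝ) * Real.log x ^ 2 ≤ c * Real.log x ^ 2 := mul_le_mul_of_nonneg_right hr2.le (sq_nonneg _)
    linarith
  · intro c hc0 hc
    obtain ⟨r, hr1, hr2⟩ := exists_rat_btwn hc
    refine ((g2 f r h1 h2 h3 (hc0.trans hr1) hr2).and_eventually (eventually_ge_atTop M)).mono ?_
    rintro x ⟨hx, hxM⟩ k k1 k2 k3
    refine hx k k1 ?_ ((hM k (by omega)).1 k3)
    have : c * Real.log x ^ 2 ≤ r * Real.log x ^ 2 := mul_le_mul_of_nonneg_right hr1.le (sq_nonneg _)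
    linarith

end Pool.Agent.N285.GP
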